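import Pool.Agent.Helper92.HX.Defs

/-! # Module SPARSE of MP_bdb766_co -/

set_option autoImplicit false

namespace Pool.Agent.Helper92.HX

open Finset SimpleGraph

section Count

variable {V : Type} [Fintype V] [DecidableEq V]

omit [DecidableEq V] in
/-- quadruples around a symmetric relation -/
theorem quad_count (P : V → V → Prop) [DecidableRel P] (hs : ∀ a b, P a b → P b a) :
    ((univ.filter fun p : V × V => P p.1 p.2).card : ℝ) ^ 4 ≤
      (Fintype.card V : ℝ) ^ 4 * ((univ.filter fun q : V × V × V × V =>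
        P q.1 q.2.1 ∧ P q.2.1 q.2.2.1 ∧ P q.2.2.1 q.2.2.2 ∧ P q.2.2.2 q.1).card : ℝ) := by
  classical
  let p : V → V → ℝ := fun a b => if P a b then 1 else 0
  have hp : ∀ a b, p a b = p b a := by
    intro a b
    simp only [p]
    by_cases h : P a b
    · rw [if_pos h, if_pos (hs _ _ h)]
    · rw [if_neg h, if_neg (fun h' => h (hs _ _ h'))]
  let q : V → V → ℝ := fun a c => ∑ b, p a b * p b c
  have hP : ((univ.filter fun x : V × V => P x.1 x.2).card : ℝ) = ∑ b, ∑ a, p a b := by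
    rw [Finset.card_filter, Nat.cast_sum, Fintype.sum_prod_type, Finset.sum_comm]
    simp only [p, Nat.cast_ite, Nat.cast_one, Nat.cast_zero]
  have hQ : ((univ.filter fun q : V × V × V × V =>
        P q.1 q.2.1 ∧ P q.2.1 q.2.2.1 ∧ P q.2.2.1 q.2.2.2 ∧ P q.2.2.2 q.1).card : ℝ) =
      ∑ a, ∑ c, q a c ^ 2 := by
    rw [Finset.card_filter, Nat.cast_sum, Fintype.sum_prod_type]
    refine Finset.sum_congr rfl fun a _ => ?_
    rw [Fintype.sum_prod_type]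
    simp only [Fintype.sum_prod_type]
    simp only [q, sq, Finset.sum_mul_sum]
    rw [Finset.sum_comm]
    refine Finset.sum_congr rfl fun c _ => Finset.sum_congr rfl fun b _ =>
      Finset.sum_congr rfl fun d _ => ?_
    rw [hp a d, hp d c]
    simp only [p]
    by_cases h1 : P a b <;> by_cases h2 : P b c <;> by_cases h3 : P c d <;>
      by_cases h4 : P d a <;> simp [h1, h2, h3, h4]
  have h1 : (∑ b, ∑ a, p a b) ^ 2 ≤ (Fintype.card V : ℝ) * ∑ b, (∑ a, p a b) ^ 2 := by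
    have := sq_sum_le_card_mul_sum_sq (s := (univ : Finset V)) (f := fun b => ∑ a, p a b)
    simpa using this
  have h2 : ∑ b, (∑ a, p a b) ^ 2 = ∑ x : V × V, q x.1 x.2 := by
    rw [Fintype.sum_prod_type]
    simp only [q, sq, Finset.sum_mul_sum]
    rw [Finset.sum_comm]
    refine Finset.sum_congr rfl fun a _ => ?_
    rw [Finset.sum_comm]
    refine Finset.sum_congr rfl fun c _ => Finset.sum_congr rfl fun b _ => ?_
    rw [hp b c]
  have h3 : (∑ x : V × V, q x.1 x.2) ^ 2 ≤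
      (Fintype.card V : ℝ) ^ 2 * ∑ x : V × V, q x.1 x.2 ^ 2 := by
    have := sq_sum_le_card_mul_sum_sq (s := (univ : Finset (V × V))) (f := fun x => q x.1 x.2)
    rw [Finset.card_univ, Fintype.card_prod] at this
    push_cast at this
    rw [sq (Fintype.card V : ℝ)]
    exact this
  have h4 : ∑ x : V × V, q x.1 x.2 ^ 2 = ∑ a, ∑ c, q a c ^ 2 := Fintype.sum_prod_type _
  have h5 : 0 ≤ ∑ b, (∑ a, p a b) ^ 2 := Finset.sum_nonneg fun _ _ => sq_nonneg _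
  rw [hP, hQ, ← h4]
  have hn : (0 : ℝ) ≤ Fintype.card V := Nat.cast_nonneg _
  calc (∑ b, ∑ a, p a b) ^ 4 = ((∑ b, ∑ a, p a b) ^ 2) ^ 2 := by ring
    _ ≤ ((Fintype.card V : ℝ) * ∑ b, (∑ a, p a b) ^ 2) ^ 2 :=
        pow_le_pow_left₀ (sq_nonneg _) h1 2
    _ = (Fintype.card V : ℝ) ^ 2 * (∑ x : V × V, q x.1 x.2) ^ 2 := by rw [h2]; ring
    _ ≤ (Fintype.card V : ℝ) ^ 2 * ((Fintype.card V : ℝ) ^ 2 * ∑ x : V × V, q x.1 x.2 ^ 2) := by
        gcongr
    _ = _ := by ring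

omit [DecidableEq V] in
/-- sets of quadruples determined by three coordinates -/
theorem det_card (R : V × V × V × V → Prop) [DecidablePred R] (f : V × V × V × V → V × V × V)
    (hf : ∀ q q', R q → R q' → f q = f q' → q = q') :
    (univ.filter R).card ≤ Fintype.card V ^ 3 := by
  have h := Finset.card_le_card_of_injOn (s := univ.filter R) (t := univ) f
    (fun q _ => by simp) (fun q hq q' hq' h => hf q q' (by simpa using hq) (by simpa using hq') h)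
  refine h.trans ?_
  rw [Finset.card_univ, Fintype.card_prod, Fintype.card_prod]
  exact le_of_eq (by ring)

/-- quadruples with three entries in a common neighbourhood -/
theorem tri_card (G : SimpleGraph V) [DecidableRel G.Adj] (X : Finset V)
    (f : V × V × V × V → V × V × V × V) (hf : Function.Injective f) :
    (univ.filter fun q : V × V × V × V => ∃ x ∈ X, G.Adj x (f q).1 ∧ G.Adj x (f q).2.1 ∧
      G.Adj x (f q).2.2.1).card ≤ Fintype.card V * ∑ x ∈ X, G.degree x ^ 3 := by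
  classical
  have h := Finset.card_le_card_of_injOn (s := univ.filter fun q : V × V × V × V =>
      ∃ x ∈ X, G.Adj x (f q).1 ∧ G.Adj x (f q).2.1 ∧ G.Adj x (f q).2.2.1)
    (t := X.biUnion fun x => G.neighborFinset x ×ˢ G.neighborFinset x ×ˢ G.neighborFinset x ×ˢ
      (univ : Finset V)) f
    (fun q hq => by
      simp only [coe_filter, mem_univ, true_and, Set.mem_ofPred_eq] at hq
      obtain ⟨x, hx, h1, h2, h3⟩ := hq
      simp only [coe_biUnion, Set.mem_iUnion, coe_product, Set.mem_prod, Finset.mem_coe,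
        mem_neighborFinset, mem_univ, and_true]
      exact ⟨x, hx, h1, h2, h3⟩) (hf.injOn)
  refine h.trans (Finset.card_biUnion_le.trans ?_)
  rw [Finset.mul_sum]
  refine Finset.sum_le_sum fun x _ => ?_
  simp only [Finset.card_product, card_neighborFinset_eq_degree, Finset.card_univ]
  exact le_of_eq (by ring)

/-- linked pairs -/
def Lk (G : SimpleGraph V) (X : Finset V) (a b : V) : Prop := a ≠ b ∧ ∃ x ∈ X, G.Adj x a ∧ G.Adj x b

instance (G : SimpleGraph V) [DecidableRel G.Adj] (X : Finset V) : DecidableRel (Lk G X) := by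
  intro a b; unfold Lk; infer_instance

theorem quad_bad (G : SimpleGraph V) [DecidableRel G.Adj] (hG : NoC8 G) (X : Finset V) :
    (univ.filter fun q : V × V × V × V =>
        Lk G X q.1 q.2.1 ∧ Lk G X q.2.1 q.2.2.1 ∧ Lk G X q.2.2.1 q.2.2.2 ∧
          Lk G X q.2.2.2 q.1).card ≤
      10 * Fintype.card V ^ 3 + 4 * (Fintype.card V * ∑ x ∈ X, G.degree x ^ 3) := by
  classical
  have hex : ∀ a b : V, ∃ x, Lk G X a b → x ∈ X ∧ G.Adj x a ∧ G.Adj x b := by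
    intro a b
    by_cases h : Lk G X a b
    · obtain ⟨x, hx, h1⟩ := h.2
      exact ⟨x, fun _ => ⟨hx, h1⟩⟩
    · exact ⟨a, fun h' => absurd h' h⟩
  choose w hw using hex
  -- the bad sets
  have r1 := det_card (fun q : V × V × V × V => q.1 = q.2.2.1) (fun q => (q.1, q.2.1, q.2.2.2))
    (by rintro ⟨a, b, c, d⟩ ⟨a', b', c', d'⟩ h h' he
        simp only [Prod.mk.injEq] at h h' he ⊢
        obtain ⟨rfl, rfl, rfl⟩ := he
        exact ⟨rfl, rfl, h.symm.trans h', rfl⟩)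
  have r2 := det_card (fun q : V × V × V × V => q.2.1 = q.2.2.2) (fun q => (q.1, q.2.1, q.2.2.1))
    (by rintro ⟨a, b, c, d⟩ ⟨a', b', c', d'⟩ h h' he
        simp only [Prod.mk.injEq] at h h' he ⊢
        obtain ⟨rfl, rfl, rfl⟩ := he
        exact ⟨rfl, rfl, rfl, h.symm.trans h'⟩)
  have r3 := det_card (fun q : V × V × V × V => w q.1 q.2.1 = q.2.2.1)
    (fun q => (q.1, q.2.1, q.2.2.2))
    (by rintro ⟨a, b, c, d⟩ ⟨a', b', c', d'⟩ h h' he
        simp only [Prod.mk.injEq] at h h' he ⊢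
        obtain ⟨rfl, rfl, rfl⟩ := he
        exact ⟨rfl, rfl, h.symm.trans h', rfl⟩)
  have r4 := det_card (fun q : V × V × V × V => w q.1 q.2.1 = q.2.2.2)
    (fun q => (q.1, q.2.1, q.2.2.1))
    (by rintro ⟨a, b, c, d⟩ ⟨a', b', c', d'⟩ h h' he
        simp only [Prod.mk.injEq] at h h' he ⊢
        obtain ⟨rfl, rfl, rfl⟩ := he
        exact ⟨rfl, rfl, rfl, h.symm.trans h'⟩)
  have r5 := det_card (fun q : V × V × V × V => w q.2.1 q.2.2.1 = q.2.2.2)
    (fun q => (q.1, q.2.1, q.2.2.1))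
    (by rintro ⟨a, b, c, d⟩ ⟨a', b', c', d'⟩ h h' he
        simp only [Prod.mk.injEq] at h h' he ⊢
        obtain ⟨rfl, rfl, rfl⟩ := he
        exact ⟨rfl, rfl, rfl, h.symm.trans h'⟩)
  have r6 := det_card (fun q : V × V × V × V => w q.2.1 q.2.2.1 = q.1)
    (fun q => (q.2.1, q.2.2.1, q.2.2.2))
    (by rintro ⟨a, b, c, d⟩ ⟨a', b', c', d'⟩ h h' he
        simp only [Prod.mk.injEq] at h h' he ⊢
        obtain ⟨rfl, rfl, rfl⟩ := he
        exact ⟨h.symm.trans h', rfl, rfl, rfl⟩)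
  have r7 := det_card (fun q : V × V × V × V => w q.2.2.1 q.2.2.2 = q.1)
    (fun q => (q.2.1, q.2.2.1, q.2.2.2))
    (by rintro ⟨a, b, c, d⟩ ⟨a', b', c', d'⟩ h h' he
        simp only [Prod.mk.injEq] at h h' he ⊢
        obtain ⟨rfl, rfl, rfl⟩ := he
        exact ⟨h.symm.trans h', rfl, rfl, rfl⟩)
  have r8 := det_card (fun q : V × V × V × V => w q.2.2.1 q.2.2.2 = q.2.1)
    (fun q => (q.1, q.2.2.1, q.2.2.2))
    (by rintro ⟨a, b, c, d⟩ ⟨a', b', c', d'⟩ h h' he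
        simp only [Prod.mk.injEq] at h h' he ⊢
        obtain ⟨rfl, rfl, rfl⟩ := he
        exact ⟨rfl, h.symm.trans h', rfl, rfl⟩)
  have r9 := det_card (fun q : V × V × V × V => w q.2.2.2 q.1 = q.2.1)
    (fun q => (q.1, q.2.2.1, q.2.2.2))
    (by rintro ⟨a, b, c, d⟩ ⟨a', b', c', d'⟩ h h' he
        simp only [Prod.mk.injEq] at h h' he ⊢
        obtain ⟨rfl, rfl, rfl⟩ := he
        exact ⟨rfl, h.symm.trans h', rfl, rfl⟩)
  have r10 := det_card (fun q : V × V × V × V => w q.2.2.2 q.1 = q.2.2.1)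
    (fun q => (q.1, q.2.1, q.2.2.2))
    (by rintro ⟨a, b, c, d⟩ ⟨a', b', c', d'⟩ h h' he
        simp only [Prod.mk.injEq] at h h' he ⊢
        obtain ⟨rfl, rfl, rfl⟩ := he
        exact ⟨rfl, rfl, h.symm.trans h', rfl⟩)
  have t1 := tri_card G X (fun q => (q.1, q.2.1, q.2.2.1, q.2.2.2)) (by
    rintro ⟨a, b, c, d⟩ ⟨a', b', c', d'⟩ h; simpa using h)
  have t2 := tri_card G X (fun q => (q.2.1, q.2.2.1, q.2.2.2, q.1)) (by
    rintro ⟨a, b, c, d⟩ ⟨a', b', c', d'⟩ h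
    simp only [Prod.mk.injEq] at h ⊢; tauto)
  have t3 := tri_card G X (fun q => (q.2.2.1, q.2.2.2, q.1, q.2.1)) (by
    rintro ⟨a, b, c, d⟩ ⟨a', b', c', d'⟩ h
    simp only [Prod.mk.injEq] at h ⊢; tauto)
  have t4 := tri_card G X (fun q => (q.2.2.2, q.1, q.2.1, q.2.2.1)) (by
    rintro ⟨a, b, c, d⟩ ⟨a', b', c', d'⟩ h
    simp only [Prod.mk.injEq] at h ⊢; tauto)
  have key : ∀ q : V × V × V × V, (Lk G X q.1 q.2.1 ∧ Lk G X q.2.1 q.2.2.1 ∧
      Lk G X q.2.2.1 q.2.2.2 ∧ Lk G X q.2.2.2 q.1) →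
      (q.1 = q.2.2.1 ∨ q.2.1 = q.2.2.2 ∨ w q.1 q.2.1 = q.2.2.1 ∨ w q.1 q.2.1 = q.2.2.2 ∨
      w q.2.1 q.2.2.1 = q.2.2.2 ∨ w q.2.1 q.2.2.1 = q.1 ∨ w q.2.2.1 q.2.2.2 = q.1 ∨
      w q.2.2.1 q.2.2.2 = q.2.1 ∨ w q.2.2.2 q.1 = q.2.1 ∨ w q.2.2.2 q.1 = q.2.2.1) ∨
      ((∃ x ∈ X, G.Adj x q.1 ∧ G.Adj x q.2.1 ∧ G.Adj x q.2.2.1) ∨
      (∃ x ∈ X, G.Adj x q.2.1 ∧ G.Adj x q.2.2.1 ∧ G.Adj x q.2.2.2) ∨
      (∃ x ∈ X, G.Adj x q.2.2.1 ∧ G.Adj x q.2.2.2 ∧ G.Adj x q.1) ∨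
      (∃ x ∈ X, G.Adj x q.2.2.2 ∧ G.Adj x q.1 ∧ G.Adj x q.2.1)) := by
    rintro ⟨a, b, c, d⟩ ⟨h1, h2, h3, h4⟩
    simp only at h1 h2 h3 h4 ⊢
    by_contra hcon
    obtain ⟨w1, w1a, w1b⟩ := hw a b h1
    obtain ⟨w2, w2b, w2c⟩ := hw b c h2
    obtain ⟨w3, w3c, w3d⟩ := hw c d h3
    obtain ⟨w4, w4d, w4a⟩ := hw d a h4
    simp only [not_or, not_exists, not_and] at hcon
    obtain ⟨⟨n1, n2, n3, n4, n5, n6, n7, n8, n9, n10⟩, m1, m2, m3, m4⟩ := hcon
    have e12 : w a b ≠ w b c := fun h => m1 _ w1 w1a w1b (h ▸ w2c)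
    have e23 : w b c ≠ w c d := fun h => m2 _ w2 w2b w2c (h ▸ w3d)
    have e34 : w c d ≠ w d a := fun h => m3 _ w3 w3c w3d (h ▸ w4a)
    have e41 : w d a ≠ w a b := fun h => m4 _ w4 w4d w4a (h ▸ w1b)
    have e13 : w a b ≠ w c d := fun h => m1 _ w1 w1a w1b (h ▸ w3c)
    have e24 : w b c ≠ w d a := fun h => m2 _ w2 w2b w2c (h ▸ w4d)
    refine hG a (w a b) b (w b c) c (w c d) d (w d a) ?_ w1a.symm w1b w2b.symm w2c w3c.symm w3d
      w4d.symm w4a
    have f1 := w1a.ne; have f2 := w1b.ne; have f3 := w2b.ne; have f4 := w2c.ne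
    have f5 := w3c.ne; have f6 := w3d.ne; have f7 := w4d.ne; have f8 := w4a.ne
    have g1 := h1.1; have g2 := h2.1; have g3 := h3.1; have g4 := h4.1
    simp only [List.nodup_cons, List.mem_cons, List.not_mem_nil, or_false, not_or,
      List.nodup_nil, not_false_eq_true, and_true]
    refine ⟨⟨f1.symm, g1, ?_, n1, ?_, g4.symm, f8.symm⟩, ⟨f2, e12, n3, e13, n4, e41.symm⟩,
      ⟨f3.symm, g2, ?_, n2, ?_⟩, ⟨f4, e23, n5, e24⟩, ⟨f5.symm, g3, ?_⟩, ⟨f6, e34⟩, f7.symm⟩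
    · exact fun h => n6 h.symm
    · exact fun h => n7 h.symm
    · exact fun h => n8 h.symm
    · exact fun h => n9 h.symm
    · exact fun h => n10 h.symm
  have u : ∀ (s t : Finset (V × V × V × V)) (m k : ℕ), s.card ≤ m → t.card ≤ k →
      (s ∪ t).card ≤ m + k := fun s t m k hs ht =>
    (Finset.card_union_le s t).trans (Nat.add_le_add hs ht)
  have hfin := u _ _ _ _ (u _ _ _ _ r1 (u _ _ _ _ r2 (u _ _ _ _ r3 (u _ _ _ _ r4 (u _ _ _ _ r5
    (u _ _ _ _ r6 (u _ _ _ _ r7 (u _ _ _ _ r8 (u _ _ _ _ r9 r10)))))))))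
    (u _ _ _ _ t1 (u _ _ _ _ t2 (u _ _ _ _ t3 t4)))
  refine (Finset.card_le_card ?_).trans (hfin.trans (le_of_eq (by ring)))
  intro q hq
  simp only [Finset.mem_union, Finset.mem_filter, Finset.mem_univ, true_and] at hq ⊢
  exact key q hq

/-- low pairs have few connectors -/
theorem link_lower (G : SimpleGraph V) [DecidableRel G.Adj] (X : Finset V) :
    ∑ x ∈ X, (G.neighborFinset x).offDiag.card ≤
      ∑ x ∈ X, ((G.neighborFinset x ×ˢ G.neighborFinset x).filter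
        fun p => High G p.1 p.2).card + 5 * (univ.filter fun p : V × V => Lk G X p.1 p.2).card := by
  classical
  have h1 : ∀ x ∈ X, (G.neighborFinset x).offDiag.card ≤
      ((G.neighborFinset x ×ˢ G.neighborFinset x).filter fun p => High G p.1 p.2).card +
      ((G.neighborFinset x).offDiag.filter fun p => ¬ High G p.1 p.2).card := by
    intro x _
    rw [← Finset.card_filter_add_card_filter_not (s := (G.neighborFinset x).offDiag)
      (p := fun p => High G p.1 p.2)]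
    refine Nat.add_le_add_right (Finset.card_le_card fun p hp => ?_) _
    simp only [Finset.mem_filter, Finset.mem_offDiag, Finset.mem_product] at hp ⊢
    exact ⟨⟨hp.1.1, hp.1.2.1⟩, hp.2⟩
  refine (Finset.sum_le_sum h1).trans ?_
  rw [Finset.sum_add_distrib]
  refine Nat.add_le_add_left ?_ _
  have h2 : ∀ x ∈ X, ((G.neighborFinset x).offDiag.filter fun p => ¬ High G p.1 p.2).card =
      ∑ p : V × V, if (p ∈ (G.neighborFinset x).offDiag ∧ ¬ High G p.1 p.2) then 1 else 0 := by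
    intro x _
    rw [← Finset.card_filter]
    congr 1
    ext p
    simp only [Finset.mem_filter, Finset.mem_univ, true_and]
  rw [Finset.sum_congr rfl h2, Finset.sum_comm, Finset.card_filter, Finset.mul_sum]
  refine Finset.sum_le_sum fun p _ => ?_
  rw [← Finset.card_filter]
  by_cases hp : Lk G X p.1 p.2
  · rw [if_pos hp, mul_one]
    by_cases hh : High G p.1 p.2
    · simp [hh]
    · refine (Finset.card_le_card (t := G.neighborFinset p.1 ∩ G.neighborFinset p.2) ?_).trans ?_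
      · intro x hx
        simp only [Finset.mem_filter, Finset.mem_offDiag, mem_neighborFinset, Finset.mem_inter]
          at hx ⊢
        exact ⟨hx.2.1.1.symm, hx.2.1.2.1.symm⟩
      · unfold High at hh
        have h3 : ¬ 6 ≤ cod G p.1 p.2 := fun h => hh ⟨hp.1, h⟩
        unfold cod at h3
        omega
  · rw [if_neg hp, mul_zero, Nat.le_zero, Finset.card_eq_zero, Finset.filter_eq_empty_iff]
    rintro x hx ⟨h3, _⟩
    simp only [Finset.mem_offDiag, mem_neighborFinset] at h3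
    exact hp ⟨h3.2.2, x, hx, h3.1, h3.2.1⟩

omit [Fintype V] [DecidableEq V] in
theorem Lk.symm' {G : SimpleGraph V} {X : Finset V} {a b : V} (h : Lk G X a b) : Lk G X b a := by
  obtain ⟨h1, x, hx, h2, h3⟩ := h
  exact ⟨h1.symm, x, hx, h3, h2⟩

end Count

/-- module SPARSE, given the second moment and local sparsity of the high graph -/
theorem sparse (C : ℝ) (hC : 0 < C) :
    ∀ ε : ℝ, 0 < ε → ∃ n₀ : ℕ, ∀ (V : Type) [Fintype V] [DecidableEq V] (G : SimpleGraph V)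
      [DecidableRel G.Adj], NoC8 G → n₀ ≤ Fintype.card V →
      (∑ v, (G.degree v : ℝ) ^ 2 ≤ C * (Fintype.card V : ℝ) ^ 2) →
      (∀ η : ℝ, 0 < η → η ≤ 1 → ∀ N : Finset V,
        (((N ×ˢ N).filter fun p => High G p.1 p.2).card : ℝ) ≤
          η * (N.card : ℝ) ^ 2 + 2 / η * (N.card : ℝ)) →
      (∑ v, (G.degree v : ℝ)) ^ 2 ≤ ε * (Fintype.card V : ℝ) ^ 3 := by
  intro ε hε
  -- constants
  obtain ⟨κ, hκ⟩ : ∃ κ : ℝ, κ = (ε / 80) ^ 4 := ⟨_, rfl⟩
  have hκ0 : 0 < κ := by rw [hκ]; positivity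
  obtain ⟨δ, hδ⟩ : ∃ δ : ℝ, δ = κ / (16 * C) := ⟨_, rfl⟩
  have hδ0 : 0 < δ := by rw [hδ]; positivity
  obtain ⟨η, hη0, hη1, hηC⟩ : ∃ η : ℝ, 0 < η ∧ η ≤ 1 ∧ η * C ≤ ε / 32 := by
    refine ⟨min 1 (ε / (32 * C)), by positivity, min_le_left _ _, ?_⟩
    calc min 1 (ε / (32 * C)) * C ≤ ε / (32 * C) * C := by gcongr; exact min_le_right _ _
      _ = ε / 32 := by field_simp
  obtain ⟨n₀, hn₀⟩ := exists_nat_gt (max (max (4 * C ^ 2 / (δ ^ 2 * ε)) (64 * C / ε ^ 2))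
    (max (64 ^ 2 * C / (η * ε) ^ 2) (20 / κ)))
  refine ⟨n₀ + 1, fun V _ _ G _ hG hn hS hE => ?_⟩
  classical
  obtain ⟨n, hnn⟩ : ∃ n : ℝ, n = (Fintype.card V : ℝ) := ⟨_, rfl⟩
  have hnn0 : (n₀ : ℝ) + 1 ≤ n := by rw [hnn]; exact_mod_cast hn
  have hn0 : 0 < n := by
    have : (0 : ℝ) ≤ n₀ := Nat.cast_nonneg _
    linarith
  have hn1 : 4 * C ^ 2 / (δ ^ 2 * ε) < n := by
    have h := (le_max_left _ _).trans ((le_max_left _ _).trans hn₀.le)
    linarith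
  have hn2 : 64 * C / ε ^ 2 < n := by
    have h := (le_max_right _ _).trans ((le_max_left _ _).trans hn₀.le)
    linarith
  have hn3 : 64 ^ 2 * C / (η * ε) ^ 2 < n := by
    have h := (le_max_left _ _).trans ((le_max_right _ _).trans hn₀.le)
    linarith
  have hn4 : 20 / κ < n := by
    have h := (le_max_right _ _).trans ((le_max_right _ _).trans hn₀.le)
    linarith
  rw [← hnn] at hS ⊢
  by_contra hcon
  rw [not_le] at hcon
  obtain ⟨D, hD⟩ : ∃ D : ℝ, D = ∑ v, (G.degree v : ℝ) := ⟨_, rfl⟩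
  rw [← hD] at hcon
  let X : Finset V := univ.filter fun x => (G.degree x : ℝ) ≤ δ * n
  let Y : Finset V := univ.filter fun x => ¬ (G.degree x : ℝ) ≤ δ * n
  have hD0 : 0 ≤ D := by rw [hD]; exact Finset.sum_nonneg fun _ _ => Nat.cast_nonneg _
  have hXY : ∑ x ∈ X, (G.degree x : ℝ) + ∑ x ∈ Y, (G.degree x : ℝ) = D := by
    rw [hD]
    exact Finset.sum_filter_add_sum_filter_not _ _ _
  have hsX : ∑ x ∈ X, (G.degree x : ℝ) ^ 2 ≤ C * n ^ 2 :=
    (Finset.sum_le_sum_of_subset_of_nonneg (Finset.subset_univ _)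
      fun _ _ _ => sq_nonneg _).trans hS
  have hsY : ∑ x ∈ Y, (G.degree x : ℝ) ^ 2 ≤ C * n ^ 2 :=
    (Finset.sum_le_sum_of_subset_of_nonneg (Finset.subset_univ _)
      fun _ _ _ => sq_nonneg _).trans hS
  have hD2 : D ^ 2 ≤ C * n ^ 3 := by
    have h := sq_sum_le_card_mul_sum_sq (s := (univ : Finset V)) (f := fun v => (G.degree v : ℝ))
    rw [Finset.card_univ, ← hnn, ← hD] at h
    calc D ^ 2 ≤ n * ∑ v, (G.degree v : ℝ) ^ 2 := h
      _ ≤ n * (C * n ^ 2) := by gcongr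
      _ = C * n ^ 3 := by ring
  -- few vertices of large degree
  have hYc : (Y.card : ℝ) * δ ^ 2 ≤ C := by
    have h1 : (Y.card : ℝ) * (δ * n) ^ 2 ≤ C * n ^ 2 := by
      refine le_trans ?_ hsY
      rw [← nsmul_eq_mul]
      refine Finset.card_nsmul_le_sum _ _ _ fun x hx => ?_
      have hx' : ¬ (G.degree x : ℝ) ≤ δ * n := (Finset.mem_filter.1 hx).2
      have : δ * n ≤ (G.degree x : ℝ) := (not_le.1 hx').le
      gcongr
    have h2 : (Y.card : ℝ) * δ ^ 2 * n ^ 2 ≤ C * n ^ 2 := by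
      calc _ = (Y.card : ℝ) * (δ * n) ^ 2 := by ring
        _ ≤ _ := h1
    exact le_of_mul_le_mul_right h2 (by positivity)
  have hSY : (∑ x ∈ Y, (G.degree x : ℝ)) ^ 2 * δ ^ 2 ≤ C ^ 2 * n ^ 2 := by
    have h := sq_sum_le_card_mul_sum_sq (s := Y) (f := fun v => (G.degree v : ℝ))
    calc (∑ x ∈ Y, (G.degree x : ℝ)) ^ 2 * δ ^ 2
        ≤ ((Y.card : ℝ) * ∑ x ∈ Y, (G.degree x : ℝ) ^ 2) * δ ^ 2 := by gcongr
      _ = ((Y.card : ℝ) * δ ^ 2) * ∑ x ∈ Y, (G.degree x : ℝ) ^ 2 := by ring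
      _ ≤ C * (C * n ^ 2) := by
        gcongr
      _ = C ^ 2 * n ^ 2 := by ring
  have hSY2 : 2 * ∑ x ∈ Y, (G.degree x : ℝ) ≤ D := by
    have h1 : 4 * C ^ 2 < δ ^ 2 * ε * n := by
      rw [div_lt_iff₀ (by positivity)] at hn1
      linarith
    by_contra hc
    rw [not_le] at hc
    have h2 : D ^ 2 < (2 * ∑ x ∈ Y, (G.degree x : ℝ)) ^ 2 := by gcongr
    have h3 : D ^ 2 * δ ^ 2 < 4 * (C ^ 2 * n ^ 2) := by
      calc D ^ 2 * δ ^ 2 < (2 * ∑ x ∈ Y, (G.degree x : ℝ)) ^ 2 * δ ^ 2 := by gcongr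
        _ = 4 * ((∑ x ∈ Y, (G.degree x : ℝ)) ^ 2 * δ ^ 2) := by ring
        _ ≤ 4 * (C ^ 2 * n ^ 2) := by gcongr
    have h4 : ε * n ^ 3 * δ ^ 2 < D ^ 2 * δ ^ 2 := by gcongr
    have h5 : 4 * C ^ 2 * n ^ 2 < δ ^ 2 * ε * n * n ^ 2 := by gcongr
    have e1 : ε * n ^ 3 * δ ^ 2 = δ ^ 2 * ε * n * n ^ 2 := by ring
    have e2 : 4 * (C ^ 2 * n ^ 2) = 4 * C ^ 2 * n ^ 2 := by ring
    rw [e1] at h4
    rw [e2] at h3
    exact lt_irrefl _ (((h5.trans h4).trans h3))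
  have hSX : D / 2 ≤ ∑ x ∈ X, (G.degree x : ℝ) := by linarith
  have hSXD : ∑ x ∈ X, (G.degree x : ℝ) ≤ D := by
    have : 0 ≤ ∑ x ∈ Y, (G.degree x : ℝ) := Finset.sum_nonneg fun _ _ => Nat.cast_nonneg _
    linarith
  have hSX2 : ε * n ^ 2 / 4 ≤ ∑ x ∈ X, (G.degree x : ℝ) ^ 2 := by
    have h := sq_sum_le_card_mul_sum_sq (s := X) (f := fun v => (G.degree v : ℝ))
    have hXn : (X.card : ℝ) ≤ n := by
      rw [hnn]; exact_mod_cast Finset.card_le_univ X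
    have h0 : 0 ≤ ∑ x ∈ X, (G.degree x : ℝ) ^ 2 := Finset.sum_nonneg fun _ _ => sq_nonneg _
    have h1 : D ^ 2 / 4 ≤ n * ∑ x ∈ X, (G.degree x : ℝ) ^ 2 := by
      calc D ^ 2 / 4 = (D / 2) ^ 2 := by ring
        _ ≤ (∑ x ∈ X, (G.degree x : ℝ)) ^ 2 := by gcongr
        _ ≤ (X.card : ℝ) * ∑ x ∈ X, (G.degree x : ℝ) ^ 2 := h
        _ ≤ n * ∑ x ∈ X, (G.degree x : ℝ) ^ 2 := by gcongr
    have h2 : n * (ε * n ^ 2 / 4) ≤ n * ∑ x ∈ X, (G.degree x : ℝ) ^ 2 := by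
      refine le_trans ?_ h1
      have : n * (ε * n ^ 2 / 4) = ε * n ^ 3 / 4 := by ring
      rw [this]
      linarith
    exact le_of_mul_le_mul_left h2 hn0
  have hDs : D ≤ ε * n ^ 2 / 8 := by
    have h1 : 64 * C < ε ^ 2 * n := by
      rw [div_lt_iff₀ (by positivity)] at hn2
      linarith
    by_contra hc
    rw [not_le] at hc
    have h2 : (ε * n ^ 2 / 8) ^ 2 < D ^ 2 := by gcongr
    have h3 : 64 * C * n ^ 3 < ε ^ 2 * n * n ^ 3 := by gcongr
    have e1 : (ε * n ^ 2 / 8) ^ 2 = ε ^ 2 * n * n ^ 3 / 64 := by ring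
    have e2 : 64 * C * n ^ 3 = 64 * (C * n ^ 3) := by ring
    rw [e1] at h2
    rw [e2] at h3
    have h4 := h2.trans_le hD2
    rw [div_lt_iff₀ (by norm_num)] at h4
    linarith only [h3, h4]
  have hDη : 2 / η * D ≤ ε * n ^ 2 / 32 := by
    have h1 : 64 ^ 2 * C < (η * ε) ^ 2 * n := by
      rw [div_lt_iff₀ (by positivity)] at hn3
      linarith
    have h4 : D ≤ η * ε * n ^ 2 / 64 := by
      by_contra hc
      rw [not_le] at hc
      have h2 : (η * ε * n ^ 2 / 64) ^ 2 < D ^ 2 := by gcongr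
      have h3 : 64 ^ 2 * C * n ^ 3 < (η * ε) ^ 2 * n * n ^ 3 := by gcongr
      have e1 : (η * ε * n ^ 2 / 64) ^ 2 = (η * ε) ^ 2 * n * n ^ 3 / 64 ^ 2 := by ring
      have e2 : 64 ^ 2 * C * n ^ 3 = 64 ^ 2 * (C * n ^ 3) := by ring
      rw [e1] at h2
      rw [e2] at h3
      have h4 := h2.trans_le hD2
      rw [div_lt_iff₀ (by norm_num)] at h4
      linarith only [h3, h4]
    calc 2 / η * D ≤ 2 / η * (η * ε * n ^ 2 / 64) := by gcongr
      _ = ε * n ^ 2 / 32 := by field_simp; ring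
  -- the number of linked pairs
  obtain ⟨P, hP⟩ : ∃ P : ℕ, P = (univ.filter fun p : V × V => Lk G X p.1 p.2).card := ⟨_, rfl⟩
  have hlow := link_lower G X
  rw [← hP] at hlow
  have hlow' : ((∑ x ∈ X, (G.neighborFinset x).offDiag.card : ℕ) : ℝ) ≤
      ((∑ x ∈ X, ((G.neighborFinset x ×ˢ G.neighborFinset x).filter
        fun p => High G p.1 p.2).card : ℕ) : ℝ) + 5 * (P : ℝ) := by exact_mod_cast hlow
  have hoff : ((∑ x ∈ X, (G.neighborFinset x).offDiag.card : ℕ) : ℝ) =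
      ∑ x ∈ X, (G.degree x : ℝ) ^ 2 - ∑ x ∈ X, (G.degree x : ℝ) := by
    rw [Nat.cast_sum, ← Finset.sum_sub_distrib]
    refine Finset.sum_congr rfl fun x _ => ?_
    rw [Finset.offDiag_card, card_neighborFinset_eq_degree, Nat.cast_sub (Nat.le_mul_self _)]
    push_cast
    ring
  have hhigh : ((∑ x ∈ X, ((G.neighborFinset x ×ˢ G.neighborFinset x).filter
        fun p => High G p.1 p.2).card : ℕ) : ℝ) ≤ ε * n ^ 2 / 16 := by
    rw [Nat.cast_sum]
    calc ∑ x ∈ X, ((((G.neighborFinset x ×ˢ G.neighborFinset x).filter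
          fun p => High G p.1 p.2).card : ℕ) : ℝ)
        ≤ ∑ x ∈ X, (η * (G.degree x : ℝ) ^ 2 + 2 / η * (G.degree x : ℝ)) := by
          refine Finset.sum_le_sum fun x _ => ?_
          have h := hE η hη0 hη1 (G.neighborFinset x)
          rwa [card_neighborFinset_eq_degree] at h
      _ = η * ∑ x ∈ X, (G.degree x : ℝ) ^ 2 + 2 / η * ∑ x ∈ X, (G.degree x : ℝ) := by
          rw [Finset.sum_add_distrib, Finset.mul_sum, Finset.mul_sum]
      _ ≤ η * (C * n ^ 2) + 2 / η * D := by gcongr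
      _ = η * C * n ^ 2 + 2 / η * D := by ring
      _ ≤ ε / 32 * n ^ 2 + ε * n ^ 2 / 32 := by gcongr
      _ = ε * n ^ 2 / 16 := by ring
  have hPl : ε / 80 * n ^ 2 ≤ (P : ℝ) := by
    rw [hoff] at hlow'
    linarith
  -- the quadruples
  have hq1 := quad_count (Lk G X) (fun a b h => h.symm')
  have hq2 := quad_bad G hG X
  rw [← hP, ← hnn] at hq1
  have hdeg3 : ((∑ x ∈ X, G.degree x ^ 3 : ℕ) : ℝ) ≤ δ * n * (C * n ^ 2) := by
    push_cast
    calc ∑ x ∈ X, (G.degree x : ℝ) ^ 3 ≤ ∑ x ∈ X, δ * n * (G.degree x : ℝ) ^ 2 := by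
          refine Finset.sum_le_sum fun x hx => ?_
          have hx' : (G.degree x : ℝ) ≤ δ * n := (Finset.mem_filter.1 hx).2
          calc (G.degree x : ℝ) ^ 3 = (G.degree x : ℝ) * (G.degree x : ℝ) ^ 2 := by ring
            _ ≤ δ * n * (G.degree x : ℝ) ^ 2 := by gcongr
      _ = δ * n * ∑ x ∈ X, (G.degree x : ℝ) ^ 2 := by rw [Finset.mul_sum]
      _ ≤ δ * n * (C * n ^ 2) := by gcongr
  have hq3 : ((univ.filter fun q : V × V × V × V =>
        Lk G X q.1 q.2.1 ∧ Lk G X q.2.1 q.2.2.1 ∧ Lk G X q.2.2.1 q.2.2.2 ∧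
          Lk G X q.2.2.2 q.1).card : ℝ) ≤ 10 * n ^ 3 + κ / 4 * n ^ 4 := by
    have h1 : ((univ.filter fun q : V × V × V × V =>
        Lk G X q.1 q.2.1 ∧ Lk G X q.2.1 q.2.2.1 ∧ Lk G X q.2.2.1 q.2.2.2 ∧
          Lk G X q.2.2.2 q.1).card : ℝ) ≤
        10 * n ^ 3 + 4 * (n * ((∑ x ∈ X, G.degree x ^ 3 : ℕ) : ℝ)) := by
      rw [hnn]; exact_mod_cast hq2
    refine h1.trans ?_
    calc 10 * n ^ 3 + 4 * (n * ((∑ x ∈ X, G.degree x ^ 3 : ℕ) : ℝ))
        ≤ 10 * n ^ 3 + 4 * (n * (δ * n * (C * n ^ 2))) := by gcongr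
      _ = 10 * n ^ 3 + κ / 4 * n ^ 4 := by rw [hδ]; field_simp; ring
  have hq4 : κ * n ^ 8 ≤ n ^ 4 * (10 * n ^ 3 + κ / 4 * n ^ 4) := by
    calc κ * n ^ 8 = (ε / 80 * n ^ 2) ^ 4 := by rw [hκ]; ring
      _ ≤ (P : ℝ) ^ 4 := by gcongr
      _ ≤ _ := hq1
      _ ≤ _ := by gcongr
  have hq5 : 20 < κ * n := by
    rw [div_lt_iff₀ hκ0] at hn4
    linarith
  have hq6 : n ^ 7 * (κ * n) ≤ n ^ 7 * (10 + κ / 4 * n) := by
    calc n ^ 7 * (κ * n) = κ * n ^ 8 := by ring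
      _ ≤ _ := hq4
      _ = n ^ 7 * (10 + κ / 4 * n) := by ring
  have hq7 := le_of_mul_le_mul_left hq6 (by positivity)
  linarith

end Pool.Agent.Helper92.HX
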